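import Mathlib

set_option autoImplicit false

/-!
# The monomial basis of an exterior algebra: left multiplication and contraction
-/

namespace Pool.Agent.H15.EGH

open Module Set ExteriorAlgebra

section

variable {A M I : Type} [CommRing A] [AddCommGroup M] [Module A M] [LinearOrder I]
  (b : Basis I A M)

lemma ext_basis_eq (s : Finset I) :
    b.ExteriorAlgebra s = (s.sort.map (fun i => ExteriorAlgebra.ι A (b i))).prod := by
  rw [ExteriorAlgebra.basis_apply_ofCard b rfl, ExteriorAlgebra.ιMulti_family,
    ExteriorAlgebra.ιMulti_apply]
  congr 1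
  rw [← Finset.listMap_orderEmbOfFin_finRange s rfl, List.map_map, List.ofFn_eq_map]
  rfl

lemma ext_basis_empty : b.ExteriorAlgebra ∅ = 1 := by
  rw [ext_basis_eq]; simp

lemma ext_basis_insert {a : I} {s : Finset I} (h : ∀ x ∈ s, a < x) :
    b.ExteriorAlgebra (insert a s) = ExteriorAlgebra.ι A (b a) * b.ExteriorAlgebra s := by
  have ha : a ∉ s := fun h' => lt_irrefl _ (h a h')
  rw [ext_basis_eq, ext_basis_eq, Finset.sort_insert _ (fun x hx => (h x hx).le) ha]
  simp

/-- Induction on a finset by adding a new minimum. -/
lemma min_induction {P : Finset I → Prop} (h0 : P ∅)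
    (hi : ∀ (a : I) (s : Finset I), (∀ x ∈ s, a < x) → P s → P (insert a s)) (s : Finset I) :
    P s := by
  induction s using Finset.induction_on_min with
  | empty => exact h0
  | insert a s ha ih => exact hi a s ha ih

/-- left multiplication by a basis vector sends a basis element to `0` or `±` a basis element. -/
lemma ι_mul_ext_basis (a : I) (s : Finset I) :
    ExteriorAlgebra.ι A (b a) * b.ExteriorAlgebra s = 0 ∨
      (a ∉ s ∧ (ExteriorAlgebra.ι A (b a) * b.ExteriorAlgebra s = b.ExteriorAlgebra (insert a s) ∨
      ExteriorAlgebra.ι A (b a) * b.ExteriorAlgebra s = - b.ExteriorAlgebra (insert a s))) := by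
  induction s using min_induction with
  | h0 =>
    right
    refine ⟨by simp, Or.inl ?_⟩
    rw [ext_basis_insert b (by simp)]
  | hi c s hc ih =>
    rcases lt_trichotomy a c with h | h | h
    · right
      refine ⟨?_, Or.inl ?_⟩
      · intro hmem
        rcases Finset.mem_insert.1 hmem with h' | h'
        · exact h.ne h'
        · exact lt_irrefl _ (h.trans (hc a h'))
      · rw [← ext_basis_insert b]
        intro x hx
        rcases Finset.mem_insert.1 hx with h' | h'
        · exact h'.symm ▸ h
        · exact h.trans (hc x h')
    · left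
      subst h
      rw [ext_basis_insert b hc, ← mul_assoc, ExteriorAlgebra.ι_sq_zero, zero_mul]
    · rw [ext_basis_insert b hc]
      have hswap : ExteriorAlgebra.ι A (b a) * (ExteriorAlgebra.ι A (b c) * b.ExteriorAlgebra s)
          = - (ExteriorAlgebra.ι A (b c) * (ExteriorAlgebra.ι A (b a) * b.ExteriorAlgebra s)) := by
        rw [← mul_assoc, ← mul_assoc, ← neg_mul]
        congr 1
        exact eq_neg_of_add_eq_zero_left (ExteriorAlgebra.ι_add_mul_swap _ _)
      rw [hswap]
      rcases ih with ih | ⟨has, ih | ih⟩
      · left; rw [ih, mul_zero, neg_zero]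
      · right
        refine ⟨by simp [h.ne', has], Or.inr ?_⟩
        rw [ih, ← ext_basis_insert b, Finset.insert_comm]
        intro x hx
        rcases Finset.mem_insert.1 hx with h' | h'
        · exact h'.symm ▸ h
        · exact hc x h'
      · right
        refine ⟨by simp [h.ne', has], Or.inl ?_⟩
        rw [ih, mul_neg, neg_neg, ← ext_basis_insert b, Finset.insert_comm]
        intro x hx
        rcases Finset.mem_insert.1 hx with h' | h'
        · exact h'.symm ▸ h
        · exact hc x h'

end

end Pool.Agent.H15.EGH
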