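import Mathlib

set_option autoImplicit false

/-!
# Gradings on free modules over a polynomial ring, with variables in degree 2
-/

namespace Pool.Agent.H15.EGH

open MvPolynomial

section Gr

variable {K ι : Type} [Field K]
variable {E S : Type} [AddCommGroup E] [Module (MvPolynomial ι K) E] [Module K E]
  [IsScalarTower K (MvPolynomial ι K) E]

/-- The degree `w` part of a free module over `K[z]` with basis `β` in degrees `δ`, where the
variables `z` have degree 2. -/
def Gr (β : Module.Basis S (MvPolynomial ι K) E) (δ : S → ℕ) (w : ℕ) : Submodule K E where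
  carrier := {v | ∀ s m, (β.repr v s).coeff m ≠ 0 → δ s + 2 * m.degree = w}
  zero_mem' := by
    intro s m h
    simp at h
  add_mem' := by
    intro v v' hv hv' s m h
    rw [map_add, Finsupp.add_apply, coeff_add] at h
    by_cases h1 : (β.repr v s).coeff m = 0
    · rw [h1, zero_add] at h
      exact hv' s m h
    · exact hv s m h1
  smul_mem' := by
    intro c v hv s m h
    have h2 : β.repr (c • v) = (C c : MvPolynomial ι K) • β.repr v := by
      rw [← map_smul]
      congr 1
      rw [← algebraMap_smul (MvPolynomial ι K) c v]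
      rfl
    rw [h2, Finsupp.smul_apply, smul_eq_mul, coeff_C_mul] at h
    exact hv s m (right_ne_zero_of_mul h)

variable (β : Module.Basis S (MvPolynomial ι K) E) (δ : S → ℕ)

lemma mem_Gr {w : ℕ} {v : E} :
    v ∈ Gr (K := K) β δ w ↔ ∀ s m, (β.repr v s).coeff m ≠ 0 → δ s + 2 * m.degree = w := Iff.rfl

lemma basis_mem_Gr (s : S) : β s ∈ Gr (K := K) β δ (δ s) := by
  classical
  intro t m h
  rw [Module.Basis.repr_self, Finsupp.single_apply] at h
  split_ifs at h with hst
  · subst hst
    rw [MvPolynomial.coeff_one] at h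
    split_ifs at h with hm
    · subst hm
      simp
    · exact absurd rfl h
  · simp at h

lemma smul_mem_Gr {w p : ℕ} {v : E} (hv : v ∈ Gr (K := K) β δ w) {f : MvPolynomial ι K}
    (hf : f.IsHomogeneous p) : f • v ∈ Gr (K := K) β δ (w + 2 * p) := by
  classical
  intro s m h
  rw [map_smul, Finsupp.smul_apply, smul_eq_mul, coeff_mul] at h
  obtain ⟨x, hx, hne⟩ := Finset.exists_ne_zero_of_sum_ne_zero h
  rw [Finset.HasAntidiagonal.mem_antidiagonal] at hx
  have h1 := hf (left_ne_zero_of_mul hne)
  have h2 := hv s _ (right_ne_zero_of_mul hne)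
  rw [← hx, map_add]
  have h3 : x.1.degree = p := by
    rw [← h1, Finsupp.weight_apply, Finsupp.degree_apply]
    simp [Finsupp.sum]
  omega

/-- every coefficient of a homogeneous vector is a homogeneous polynomial -/
lemma repr_isHomogeneous {w : ℕ} {v : E} (hv : v ∈ Gr (K := K) β δ w) (s : S)
    (hne : β.repr v s ≠ 0) : ∃ p, δ s + 2 * p = w ∧ (β.repr v s).IsHomogeneous p := by
  obtain ⟨m, hm⟩ := MvPolynomial.ne_zero_iff.1 hne
  refine ⟨m.degree, hv s m hm, ?_⟩
  intro m' hm'
  have h1 := hv s m hm
  have h2 := hv s m' hm'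
  have h3 : Finsupp.weight 1 m' = m'.degree := by
    rw [Finsupp.weight_apply, Finsupp.degree_apply]; simp [Finsupp.sum]
  rw [h3]
  omega

variable {E' S' : Type} [AddCommGroup E'] [Module (MvPolynomial ι K) E'] [Module K E']
  [IsScalarTower K (MvPolynomial ι K) E'] (β' : Module.Basis S' (MvPolynomial ι K) E') (δ' : S' → ℕ)

/-- a linear map which is homogeneous on the basis is homogeneous -/
lemma map_mem_Gr (T : E →ₗ[MvPolynomial ι K] E') (k : ℕ)
    (hT : ∀ s, T (β s) ∈ Gr (K := K) β' δ' (δ s + k)) {w : ℕ} {v : E}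
    (hv : v ∈ Gr (K := K) β δ w) : T v ∈ Gr (K := K) β' δ' (w + k) := by
  have h1 : T v = (β.repr v).sum fun s f => f • T (β s) := by
    conv_lhs => rw [← β.linearCombination_repr v]
    rw [Finsupp.linearCombination_apply, map_finsuppSum]
    simp [map_smul]
  rw [h1, Finsupp.sum]
  refine Submodule.sum_mem _ fun s hs => ?_
  obtain ⟨p, hp, hhom⟩ := repr_isHomogeneous β δ hv s (Finsupp.mem_support_iff.1 hs)
  have h2 := smul_mem_Gr β' δ' (hT s) hhom
  have h3 : δ s + k + 2 * p = w + k := by omega
  rwa [h3] at h2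

end Gr

end Pool.Agent.H15.EGH

namespace Pool.Agent.H15.EGH

open MvPolynomial

section proj

variable {K ι : Type} [Field K]
variable {E S : Type} [AddCommGroup E] [Module (MvPolynomial ι K) E] [Module K E]
  [IsScalarTower K (MvPolynomial ι K) E] [Fintype S]

/-- the component of `f` of degree `(w - d)/2` (when this makes sense) -/
noncomputable def pz (w d : ℕ) : MvPolynomial ι K →ₗ[K] MvPolynomial ι K :=
  if d ≤ w ∧ Even (w - d) then homogeneousComponent ((w - d) / 2) else 0

lemma pz_of_isHomogeneous {f : MvPolynomial ι K} {p : ℕ} (hf : f.IsHomogeneous p) (w d : ℕ) :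
    pz w d f = if d + 2 * p = w then f else 0 := by
  rw [pz]
  by_cases h : d + 2 * p = w
  · rw [if_pos h]
    have h1 : d ≤ w ∧ Even (w - d) := ⟨by omega, ⟨p, by omega⟩⟩
    rw [if_pos h1, homogeneousComponent_of_mem hf, if_pos (by omega)]
  · rw [if_neg h]
    by_cases h1 : d ≤ w ∧ Even (w - d)
    · rw [if_pos h1, homogeneousComponent_of_mem hf, if_neg]
      obtain ⟨h2, k, hk⟩ := h1
      omega
    · rw [if_neg h1]; rfl

/-- projection to the degree `w` part -/
noncomputable def prj (β : Module.Basis S (MvPolynomial ι K) E) (δ : S → ℕ) (w : ℕ) : E →ₗ[K] E where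
  toFun v := ∑ s, pz w (δ s) (β.repr v s) • β s
  map_add' := by
    intro v v'
    simp [add_smul, Finset.sum_add_distrib]
  map_smul' := by
    intro k v
    have h2 : β.repr (k • v) = (C k : MvPolynomial ι K) • β.repr v := by
      rw [← map_smul]
      congr 1
      rw [← algebraMap_smul (MvPolynomial ι K) k v]
      rfl
    rw [h2, RingHom.id_apply, Finset.smul_sum]
    refine Finset.sum_congr rfl fun s _ => ?_
    rw [Finsupp.smul_apply, smul_eq_mul, C_mul', map_smul, smul_assoc]

lemma prj_of_mem (β : Module.Basis S (MvPolynomial ι K) E) (δ : S → ℕ) {u : ℕ} (w : ℕ) {v : E}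
    (hv : v ∈ Gr (K := K) β δ u) : prj (K := K) β δ w v = if u = w then v else 0 := by
  have h1 : ∀ s, pz w (δ s) (β.repr v s) • β s = if u = w then β.repr v s • β s else 0 := by
    intro s
    by_cases h0 : β.repr v s = 0
    · rw [h0, map_zero, zero_smul]; simp
    · obtain ⟨p, hp, hf⟩ := repr_isHomogeneous β δ hv s h0
      rw [pz_of_isHomogeneous hf, hp]
      split_ifs <;> simp
  change ∑ s, pz w (δ s) (β.repr v s) • β s = _
  simp_rw [h1]
  split_ifs
  · exact β.sum_repr v
  · simp

lemma prj_mem (β : Module.Basis S (MvPolynomial ι K) E) (δ : S → ℕ) (w : ℕ) (v : E) :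
    prj (K := K) β δ w v ∈ Gr (K := K) β δ w := by
  change ∑ s, pz w (δ s) (β.repr v s) • β s ∈ _
  refine Submodule.sum_mem _ fun s _ => ?_
  rw [pz]
  split_ifs with h
  · have h1 := smul_mem_Gr β δ (basis_mem_Gr (K := K) β δ s)
      (homogeneousComponent_isHomogeneous ((w - δ s) / 2) (β.repr v s))
    obtain ⟨h2, k, hk⟩ := h
    have h3 : δ s + 2 * ((w - δ s) / 2) = w := by omega
    rwa [h3] at h1
  · rw [LinearMap.zero_apply, zero_smul]; exact Submodule.zero_mem _

/-- every vector is the sum of its components -/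
lemma exists_sum_prj (β : Module.Basis S (MvPolynomial ι K) E) (δ : S → ℕ) (v : E) :
    ∃ W, ∀ W' ≥ W, ∑ w ∈ Finset.range W', prj (K := K) β δ w v = v := by
  classical
  refine ⟨Finset.univ.sup (fun s => δ s + 2 * ((β.repr v s).totalDegree + 1)), fun W' hW' => ?_⟩
  change ∑ w ∈ Finset.range W', ∑ s, pz w (δ s) (β.repr v s) • β s = v
  rw [Finset.sum_comm]
  conv_rhs => rw [← β.sum_repr v]
  refine Finset.sum_congr rfl fun s _ => ?_
  rw [← Finset.sum_smul]
  congr 1
  have hs : δ s + 2 * ((β.repr v s).totalDegree + 1) ≤ W' :=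
    le_trans (Finset.le_sup (f := fun s => δ s + 2 * ((β.repr v s).totalDegree + 1))
      (Finset.mem_univ s)) hW'
  generalize β.repr v s = f at hs
  conv_rhs => rw [← sum_homogeneousComponent f]
  have h1 : ∑ i ∈ Finset.range (f.totalDegree + 1), homogeneousComponent i f =
      ∑ w ∈ (Finset.range (f.totalDegree + 1)).image (fun i => δ s + 2 * i), pz w (δ s) f := by
    rw [Finset.sum_image (by intro a _ b _ h; simpa using h)]
    refine Finset.sum_congr rfl fun i _ => ?_
    rw [pz, if_pos ⟨by omega, ⟨i, by omega⟩⟩]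
    congr 2
    omega
  rw [h1]
  symm
  apply Finset.sum_subset
  · intro w hw
    obtain ⟨i, hi, rfl⟩ := Finset.mem_image.1 hw
    rw [Finset.mem_range] at *
    omega
  · intro w _ hw'
    rw [pz]
    split_ifs with h
    · obtain ⟨h2, k, hk⟩ := h
      apply homogeneousComponent_eq_zero
      by_contra h3
      apply hw'
      rw [Finset.mem_image]
      refine ⟨k, ?_, by omega⟩
      rw [Finset.mem_range]
      omega
    · rfl

end proj

section finite

variable {K ι : Type} [Field K] [Finite ι]
variable {E S : Type} [AddCommGroup E] [Module (MvPolynomial ι K) E] [Module K E]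
  [IsScalarTower K (MvPolynomial ι K) E] [Finite S]

lemma finite_Gr (β : Module.Basis S (MvPolynomial ι K) E) (δ : S → ℕ) (w : ℕ) :
    FiniteDimensional K (Gr (K := K) β δ w) := by
  classical
  have : Fintype S := Fintype.ofFinite S
  have hfin : Set.Finite {m : ι →₀ ℕ | m.degree ≤ w} := Finsupp.finite_of_degree_le w
  let F : Set E := (fun p : (ι →₀ ℕ) × S => (monomial p.1 (1 : K)) • β p.2) ''
    ({m : ι →₀ ℕ | m.degree ≤ w} ×ˢ Set.univ)
  have hF : F.Finite := (hfin.prod Set.finite_univ).image _
  have hle : Gr (K := K) β δ w ≤ Submodule.span K F := by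
    intro v hv
    rw [← β.sum_repr v]
    refine Submodule.sum_mem _ fun s _ => ?_
    rw [(β.repr v s).as_sum, Finset.sum_smul]
    refine Submodule.sum_mem _ fun m hm => ?_
    have h1 := hv s m (mem_support_iff.1 hm)
    have h2 : (monomial m (coeff m (β.repr v s))) • β s =
        (coeff m (β.repr v s)) • ((monomial m (1 : K)) • β s) := by
      rw [← smul_assoc, smul_monomial, smul_eq_mul, mul_one]
    rw [h2]
    refine Submodule.smul_mem _ _ (Submodule.subset_span ⟨(m, s), ⟨?_, trivial⟩, rfl⟩)
    simp only [Set.mem_ofPred_eq]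
    omega
  have : FiniteDimensional K (Submodule.span K F) := FiniteDimensional.span_of_finite K hF
  exact Submodule.finiteDimensional_of_le hle

end finite

end Pool.Agent.H15.EGH
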