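import Mathlib
import Pool.Agent.H15.EGH.ExtBasis
import Pool.Agent.H15.EGH.Graded

set_option autoImplicit false

/-!
# The graded Clifford algebra of a family of quadratic forms
-/

namespace Pool.Agent.H15.EGH

open MvPolynomial Module

section

variable {K ι : Type} [Field K] [Fintype ι] [LinearOrder ι]

/-- The lower triangular bilinear form with coefficients `c a b`, `b ≤ a`. -/
noncomputable def Bf (c : ι → ι → MvPolynomial ι K) :
    LinearMap.BilinForm (MvPolynomial ι K) (ι → MvPolynomial ι K) :=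
  Matrix.toBilin' (Matrix.of fun a b => if b ≤ a then c a b else 0)

/-- the associated quadratic form -/
noncomputable def Qf (c : ι → ι → MvPolynomial ι K) :
    QuadraticForm (MvPolynomial ι K) (ι → MvPolynomial ι K) := (Bf c).toQuadraticMap

lemma Bf_single (c : ι → ι → MvPolynomial ι K) (a b : ι) :
    Bf c (Pi.single a 1) (Pi.single b 1) = if b ≤ a then c a b else 0 := by
  simp [Bf, Matrix.toBilin'_single]

/-- The Clifford algebra. -/
abbrev RR (c : ι → ι → MvPolynomial ι K) := CliffordAlgebra (Qf c)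

lemma hform (c : ι → ι → MvPolynomial ι K) : (Bf c).toQuadraticMap = Qf c - 0 := by
  simp [Qf]

/-- the standard basis of `Z^ι` -/
noncomputable abbrev sb (K ι : Type) [Field K] [Fintype ι] [LinearOrder ι] :
    Basis ι (MvPolynomial ι K) (ι → MvPolynomial ι K) := Pi.basisFun _ _

/-- The linear equivalence of the exterior algebra with the Clifford algebra. -/
noncomputable def ceq (c : ι → ι → MvPolynomial ι K) :
    ExteriorAlgebra (MvPolynomial ι K) (ι → MvPolynomial ι K) ≃ₗ[MvPolynomial ι K] RR c :=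
  CliffordAlgebra.changeFormEquiv (hform c)

/-- The basis of the Clifford algebra. -/
noncomputable def cb (c : ι → ι → MvPolynomial ι K) :
    Basis (Finset ι) (MvPolynomial ι K) (RR c) := (sb K ι).ExteriorAlgebra.map (ceq c)

/-- The generators. -/
noncomputable def xi (c : ι → ι → MvPolynomial ι K) (a : ι) : RR c :=
  CliffordAlgebra.ι (Qf c) (Pi.single a 1)

lemma ceq_ι_mul (c : ι → ι → MvPolynomial ι K) (a : ι)
    (x : ExteriorAlgebra (MvPolynomial ι K) (ι → MvPolynomial ι K)) :
    ceq c (ExteriorAlgebra.ι (MvPolynomial ι K) (Pi.single a 1) * x) =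
      xi c a * ceq c x - ceq c (CliffordAlgebra.contractLeft (Bf c (Pi.single a 1)) x) := by
  have h1 := CliffordAlgebra.changeForm_ι_mul (hform c) (Pi.single a 1) x
  have h2 := CliffordAlgebra.changeForm_contractLeft (hform c) (Bf c (Pi.single a 1)) x
  rw [← h2] at h1
  exact h1

/-- left multiplication by a generator, transported to the exterior algebra -/
lemma xi_mul_ceq (c : ι → ι → MvPolynomial ι K) (a : ι)
    (x : ExteriorAlgebra (MvPolynomial ι K) (ι → MvPolynomial ι K)) :
    xi c a * ceq c x = ceq c (ExteriorAlgebra.ι (MvPolynomial ι K) (Pi.single a 1) * x +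
      CliffordAlgebra.contractLeft (Bf c (Pi.single a 1)) x) := by
  rw [map_add, ceq_ι_mul]; abel

/-- grading of the exterior algebra -/
noncomputable abbrev GE (K ι : Type) [Field K] [Fintype ι] [LinearOrder ι] (w : ℕ) :
    Submodule K (ExteriorAlgebra (MvPolynomial ι K) (ι → MvPolynomial ι K)) :=
  Gr (K := K) (sb K ι).ExteriorAlgebra Finset.card w

/-- grading of the Clifford algebra -/
noncomputable abbrev GC (c : ι → ι → MvPolynomial ι K) (w : ℕ) : Submodule K (RR c) :=
  Gr (K := K) (cb c) Finset.card w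

lemma ι_mul_mem_GE (a : ι) {w : ℕ} {x : ExteriorAlgebra (MvPolynomial ι K) (ι → MvPolynomial ι K)}
    (hx : x ∈ GE K ι w) :
    ExteriorAlgebra.ι (MvPolynomial ι K) (Pi.single a 1) * x ∈ GE K ι (w + 1) := by
  have := map_mem_Gr (K := K) (sb K ι).ExteriorAlgebra Finset.card (sb K ι).ExteriorAlgebra
    Finset.card (LinearMap.mulLeft (MvPolynomial ι K)
      (ExteriorAlgebra.ι (MvPolynomial ι K) (Pi.single a 1))) 1 ?_ hx
  · exact this
  · intro s
    rw [LinearMap.mulLeft_apply]
    have h := ι_mul_ext_basis (sb K ι) a s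
    rw [Pi.basisFun_apply] at h
    rcases h with h | ⟨ha, h | h⟩
    · rw [h]; exact Submodule.zero_mem _
    · rw [h]
      have h2 := basis_mem_Gr (K := K) (sb K ι).ExteriorAlgebra Finset.card (insert a s)
      rwa [Finset.card_insert_of_notMem ha] at h2
    · rw [h]
      have h2 := basis_mem_Gr (K := K) (sb K ι).ExteriorAlgebra Finset.card (insert a s)
      rw [Finset.card_insert_of_notMem ha] at h2
      exact Submodule.neg_mem _ h2

lemma contract_mem_GE (d : Module.Dual (MvPolynomial ι K) (ι → MvPolynomial ι K))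
    (hd : ∀ b, (d (Pi.single b 1)).IsHomogeneous 1) {w : ℕ}
    {x : ExteriorAlgebra (MvPolynomial ι K) (ι → MvPolynomial ι K)} (hx : x ∈ GE K ι w) :
    CliffordAlgebra.contractLeft d x ∈ GE K ι (w + 1) := by
  refine map_mem_Gr (K := K) (sb K ι).ExteriorAlgebra Finset.card (sb K ι).ExteriorAlgebra
    Finset.card (CliffordAlgebra.contractLeft d) 1 ?_ hx
  intro s
  induction s using min_induction with
  | h0 =>
    rw [ext_basis_empty, CliffordAlgebra.contractLeft_one]
    exact Submodule.zero_mem _
  | hi a s ha ih =>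
    rw [ext_basis_insert _ ha, Pi.basisFun_apply]
    have h1 : CliffordAlgebra.contractLeft d (ExteriorAlgebra.ι (MvPolynomial ι K)
        (Pi.single a 1) * (sb K ι).ExteriorAlgebra s) =
        d (Pi.single a 1) • (sb K ι).ExteriorAlgebra s -
        ExteriorAlgebra.ι (MvPolynomial ι K) (Pi.single a 1) *
          CliffordAlgebra.contractLeft d ((sb K ι).ExteriorAlgebra s) :=
      CliffordAlgebra.contractLeft_ι_mul d _ _
    rw [h1]
    have has : a ∉ s := fun h => lt_irrefl _ (ha a h)
    rw [Finset.card_insert_of_notMem has]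
    refine Submodule.sub_mem _ ?_ ?_
    · have := smul_mem_Gr (K := K) (sb K ι).ExteriorAlgebra Finset.card
        (basis_mem_Gr (K := K) (sb K ι).ExteriorAlgebra Finset.card s) (hd a)
      exact this
    · exact ι_mul_mem_GE a ih

lemma ceq_mem_GC (c : ι → ι → MvPolynomial ι K) {w : ℕ}
    {x : ExteriorAlgebra (MvPolynomial ι K) (ι → MvPolynomial ι K)} :
    ceq c x ∈ GC c w ↔ x ∈ GE K ι w := by
  rw [mem_Gr, mem_Gr]
  simp [cb]

variable (c : ι → ι → MvPolynomial ι K) (hc : ∀ a b, (c a b).IsHomogeneous 1)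

include hc in
lemma xi_mul_mem (a : ι) {w : ℕ} {x : RR c} (hx : x ∈ GC c w) : xi c a * x ∈ GC c (w + 1) := by
  obtain ⟨y, rfl⟩ := (ceq c).surjective x
  rw [xi_mul_ceq, ceq_mem_GC]
  rw [ceq_mem_GC] at hx
  refine Submodule.add_mem _ (ι_mul_mem_GE a hx) (contract_mem_GE _ ?_ hx)
  intro b
  rw [Bf_single]
  split_ifs
  · exact hc a b
  · exact isHomogeneous_zero _ _ _

lemma cb_empty : cb c ∅ = 1 := by
  rw [cb, Basis.map_apply, ext_basis_empty]
  exact CliffordAlgebra.changeForm_one (hform c)

lemma contract_zero_of_lt (a : ι) (s : Finset ι) (h : ∀ x ∈ s, a < x) :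
    CliffordAlgebra.contractLeft (Bf c (Pi.single a 1)) ((sb K ι).ExteriorAlgebra s) = 0 := by
  induction s using min_induction with
  | h0 => rw [ext_basis_empty]; exact CliffordAlgebra.contractLeft_one _ _
  | hi b s hb ih =>
    rw [ext_basis_insert _ hb, Pi.basisFun_apply]
    have h1 : CliffordAlgebra.contractLeft (Bf c (Pi.single a 1))
        (ExteriorAlgebra.ι (MvPolynomial ι K) (Pi.single b 1) * (sb K ι).ExteriorAlgebra s) =
        (Bf c (Pi.single a 1)) (Pi.single b 1) • (sb K ι).ExteriorAlgebra s -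
        ExteriorAlgebra.ι (MvPolynomial ι K) (Pi.single b 1) *
          CliffordAlgebra.contractLeft (Bf c (Pi.single a 1)) ((sb K ι).ExteriorAlgebra s) :=
      CliffordAlgebra.contractLeft_ι_mul _ _ _
    rw [h1, ih (fun x hx => h x (Finset.mem_insert_of_mem hx)), mul_zero, sub_zero, Bf_single,
      if_neg (not_le.2 (h b (Finset.mem_insert_self _ _))), zero_smul]

lemma cb_insert {a : ι} {s : Finset ι} (h : ∀ x ∈ s, a < x) :
    cb c (insert a s) = xi c a * cb c s := by
  rw [cb, Basis.map_apply, Basis.map_apply, ext_basis_insert _ h, Pi.basisFun_apply, ceq_ι_mul,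
    contract_zero_of_lt c a s h, map_zero, sub_zero]

lemma cb_eq_prod (s : Finset ι) : cb c s = (s.sort.map (xi c)).prod := by
  induction s using min_induction with
  | h0 => simp [cb_empty]
  | hi a s ha ih =>
    have has : a ∉ s := fun h => lt_irrefl _ (ha a h)
    rw [cb_insert c ha, ih, Finset.sort_insert _ (fun x hx => (ha x hx).le) has]
    simp

include hc in
lemma mul_mem_GC {u v : ℕ} {x y : RR c} (hx : x ∈ GC c u) (hy : y ∈ GC c v) :
    x * y ∈ GC c (u + v) := by
  refine map_mem_Gr (K := K) (cb c) Finset.card (cb c) Finset.card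
    (LinearMap.mulRight (MvPolynomial ι K) y) v ?_ hx
  intro s
  rw [LinearMap.mulRight_apply]
  induction s using min_induction with
  | h0 => rw [cb_empty, one_mul]; simpa using hy
  | hi a s ha ih =>
    have has : a ∉ s := fun h => lt_irrefl _ (ha a h)
    rw [cb_insert c ha, mul_assoc, Finset.card_insert_of_notMem has]
    have := xi_mul_mem c hc a ih
    have h3 : s.card + v + 1 = s.card + 1 + v := by omega
    rwa [h3] at this

lemma one_mem_GC : (1 : RR c) ∈ GC c 0 := by
  have := basis_mem_Gr (K := K) (cb c) Finset.card ∅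
  rwa [cb_empty] at this

include hc in
lemma xi_mem_GC (a : ι) : xi c a ∈ GC c 1 := by
  have := xi_mul_mem c hc a (one_mem_GC c)
  rwa [mul_one] at this

lemma smul_mem_GC {u p : ℕ} {x : RR c} (hx : x ∈ GC c u) {f : MvPolynomial ι K}
    (hf : f.IsHomogeneous p) : f • x ∈ GC c (u + 2 * p) := smul_mem_Gr _ _ hx hf

lemma xi_sq (a : ι) : xi c a * xi c a = algebraMap _ _ (c a a) := by
  rw [xi, CliffordAlgebra.ι_sq_scalar]
  congr 1
  rw [Qf, LinearMap.BilinMap.toQuadraticMap_apply, Bf_single, if_pos le_rfl]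

lemma xi_anti (hs : ∀ a b, c a b = c b a) {a b : ι} (h : a ≠ b) :
    xi c a * xi c b + xi c b * xi c a = algebraMap _ _ (c a b) := by
  rw [xi, xi, CliffordAlgebra.ι_mul_ι_add_swap]
  congr 1
  rw [Qf, LinearMap.BilinMap.polar_toQuadraticMap, Bf_single, Bf_single]
  rcases lt_or_gt_of_ne h with h | h
  · rw [if_neg (not_le.2 h), if_pos h.le, zero_add, hs]
  · rw [if_pos h.le, if_neg (not_le.2 h), add_zero]

end

end Pool.Agent.H15.EGH
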