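import Mathlib
import Pool.Agent.H15.EGH.Cliff

set_option autoImplicit false
set_option linter.unusedSectionVars false

/-!
# Dimensions of the graded pieces of the Clifford algebra
-/

namespace Pool.Agent.H15.EGH

open MvPolynomial Module

section

variable {K ι : Type} [Field K]
variable {E S : Type} [AddCommGroup E] [Module (MvPolynomial ι K) E] [Module K E]
  [IsScalarTower K (MvPolynomial ι K) E]

lemma finrank_Gr [Finite ι] [Finite S] (β : Basis S (MvPolynomial ι K) E) (δ : S → ℕ) (w : ℕ) :
    finrank K (Gr (K := K) β δ w) =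
      Nat.card {p : (ι →₀ ℕ) × S // δ p.2 + 2 * p.1.degree = w} := by
  classical
  let 𝔹 := (basisMonomials ι K).smulTower β
  let A : Set ((ι →₀ ℕ) × S) := {p | δ p.2 + 2 * p.1.degree = w}
  have hfin : A.Finite := by
    have h1 : Set.Finite {m : ι →₀ ℕ | m.degree ≤ w} := Finsupp.finite_of_degree_le w
    refine (h1.prod (Set.finite_univ (α := S))).subset ?_
    rintro ⟨m, s⟩ h
    refine ⟨?_, trivial⟩
    have h2 : δ s + 2 * m.degree = w := h
    change m.degree ≤ w
    omega
  have : Fintype A := hfin.fintype
  have h1 : Gr (K := K) β δ w = Submodule.span K (Set.range fun p : A => 𝔹 p) := by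
    have h2 : (Set.range fun p : A => 𝔹 p) = 𝔹 '' A := by
      ext x; simp
    rw [h2]
    ext v
    rw [Basis.mem_span_image, mem_Gr]
    constructor
    · intro h p hp
      rw [Finset.mem_coe, Finsupp.mem_support_iff, Basis.smulTower_repr] at hp
      exact h p.2 p.1 hp
    · intro h s m hm
      have : (m, s) ∈ A := by
        apply h
        rw [Finset.mem_coe, Finsupp.mem_support_iff, Basis.smulTower_repr]
        exact hm
      exact this
  rw [h1, finrank_span_eq_card]
  · rw [← Nat.card_eq_fintype_card]
    rfl
  · exact 𝔹.linearIndependent.comp _ Subtype.val_injective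

end

section count

variable {ι : Type} [Fintype ι] [DecidableEq ι]

/-- The bijection `(m, s) ↦ 2 m + 1_s`. -/
def expEquiv (ι : Type) [Fintype ι] [DecidableEq ι] : (ι → ℕ) × Finset ι ≃ (ι → ℕ) where
  toFun p a := 2 * p.1 a + if a ∈ p.2 then 1 else 0
  invFun d := (fun a => d a / 2, Finset.univ.filter fun a => d a % 2 = 1)
  left_inv := by
    rintro ⟨m, s⟩
    ext a
    · simp only
      split_ifs <;> omega
    · simp only [Finset.mem_filter, Finset.mem_univ, true_and]
      split_ifs with h
      · simp only [h, iff_true]; omega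
      · simp only [h, iff_false]; omega
  right_inv := by
    intro d
    ext a
    simp only [Finset.mem_filter, Finset.mem_univ, true_and]
    split_ifs with h <;> omega

lemma card_exp (w : ℕ) :
    Nat.card {p : (ι →₀ ℕ) × Finset ι // p.2.card + 2 * p.1.degree = w} =
      Nat.card {d : ι →₀ ℕ // d.degree = w} := by
  apply Nat.card_congr
  let e : ((ι →₀ ℕ) × Finset ι) ≃ (ι →₀ ℕ) :=
    ((Equiv.prodCongr Finsupp.equivFunOnFinite (Equiv.refl _)).trans (expEquiv ι)).trans
      Finsupp.equivFunOnFinite.symm
  refine e.subtypeEquiv ?_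
  rintro ⟨m, s⟩
  have h1 : (e (m, s)).degree = s.card + 2 * m.degree := by
    rw [Finsupp.degree_eq_sum, Finsupp.degree_eq_sum]
    have h2 : ∀ a, e (m, s) a = 2 * m a + if a ∈ s then 1 else 0 := fun a => rfl
    simp_rw [h2]
    rw [Finset.sum_add_distrib, ← Finset.mul_sum, add_comm]
    congr 1
    simp
  rw [h1]

lemma card_degree (w : ℕ) :
    Nat.card {d : ι →₀ ℕ // d.degree = w} = (Fintype.card ι + w - 1).choose w := by
  have h1 := Finset.card_finsuppAntidiag_nat_eq_choose (s := (Finset.univ : Finset ι)) w
  rw [Finset.card_univ] at h1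
  rw [← h1]
  apply Nat.subtype_card
  intro d
  rw [Finset.mem_finsuppAntidiag, Finsupp.degree_eq_sum]
  simp

lemma card_degree' [Nonempty ι] (w : ℕ) :
    Nat.card {d : ι →₀ ℕ // d.degree = w} =
      (w + (Fintype.card ι - 1)).choose (Fintype.card ι - 1) := by
  rw [card_degree]
  have h : 0 < Fintype.card ι := Fintype.card_pos
  have h1 : Fintype.card ι + w - 1 = w + (Fintype.card ι - 1) := by omega
  rw [h1, Nat.choose_symm_add]

variable {K : Type} [Field K]

lemma finrank_homog [Nonempty ι] (w : ℕ) :
    finrank K (homogeneousSubmodule ι K w) =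
      (w + (Fintype.card ι - 1)).choose (Fintype.card ι - 1) := by
  classical
  rw [← card_degree']
  let A : Set (ι →₀ ℕ) := {d | d.degree = w}
  have hfin : A.Finite := (Finsupp.finite_of_degree_le w).subset fun d hd => le_of_eq hd
  have : Fintype A := hfin.fintype
  have h1 : homogeneousSubmodule ι K w =
      Submodule.span K (Set.range fun p : A => basisMonomials ι K p) := by
    have h2 : (Set.range fun p : A => basisMonomials ι K p) = basisMonomials ι K '' A := by
      ext x; simp
    rw [h2]
    ext v
    rw [Basis.mem_span_image, mem_homogeneousSubmodule]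
    constructor
    · intro h p hp
      rw [Finset.mem_coe, Finsupp.mem_support_iff] at hp
      have h3 := h hp
      change p.degree = w
      rw [← h3, Finsupp.degree_eq_weight_one]
      rfl
    · intro h m hm
      have h4 : m ∈ A := by
        apply h
        rw [Finset.mem_coe, Finsupp.mem_support_iff]
        exact hm
      rw [← (show m.degree = w from h4), Finsupp.degree_eq_weight_one]
      rfl
  rw [h1, finrank_span_eq_card]
  · rw [← Nat.card_eq_fintype_card]
    rfl
  · exact (basisMonomials ι K).linearIndependent.comp _ Subtype.val_injective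

end count

section GC

variable {K ι : Type} [Field K] [Fintype ι] [LinearOrder ι] [Nonempty ι]

lemma finrank_GC (c : ι → ι → MvPolynomial ι K) (w : ℕ) :
    finrank K (GC c w) = (w + (Fintype.card ι - 1)).choose (Fintype.card ι - 1) := by
  rw [finrank_Gr, card_exp, card_degree']

/-- growth of a graded submodule containing a nonzero vector -/
lemma growth_GC (c : ι → ι → MvPolynomial ι K) (P : ℕ → Submodule K (RR c))
    (hfin : ∀ u, FiniteDimensional K (P u))
    (hsmul : ∀ u (j : ι), ∀ r ∈ P u, (X j : MvPolynomial ι K) • r ∈ P (u + 2))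
    {u : ℕ} {v : RR c} (hv : v ∈ P u) (hv0 : v ≠ 0) (k : ℕ) :
    (k + (Fintype.card ι - 1)).choose (Fintype.card ι - 1) ≤ finrank K (P (u + 2 * k)) := by
  classical
  rw [← finrank_homog (K := K) (ι := ι) k]
  have hmon : ∀ m : ι →₀ ℕ, m.degree = k → (monomial m (1 : K)) • v ∈ P (u + 2 * k) := by
    have key : ∀ n, ∀ m : ι →₀ ℕ, m.degree = n → (monomial m (1 : K)) • v ∈ P (u + 2 * n) := by
      intro n
      induction n with
      | zero =>
        intro m hm
        rw [Finsupp.degree_eq_zero_iff] at hm
        subst hm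
        simpa using hv
      | succ n ih =>
        intro m hm
        have hm0 : m ≠ 0 := by rintro rfl; simp at hm
        obtain ⟨j, hj⟩ := Finsupp.ne_iff.1 hm0
        have h14 : Finsupp.single j 1 ≤ m := by
          rw [Finsupp.single_le_iff]
          exact Nat.one_le_iff_ne_zero.2 (by simpa using hj)
        obtain ⟨m', rfl⟩ := exists_add_of_le h14
        rw [map_add, Finsupp.degree_single] at hm
        have h1 := hsmul _ j _ (ih m' (by omega))
        rw [← smul_assoc, smul_eq_mul, X, monomial_mul, one_mul] at h1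
        exact h1
    exact key k
  have hmem : ∀ f ∈ homogeneousSubmodule ι K k, f • v ∈ P (u + 2 * k) := by
    intro f hf
    rw [f.as_sum, Finset.sum_smul]
    refine Submodule.sum_mem _ fun m hm => ?_
    have h2 : (monomial m (coeff m f)) • v = (coeff m f) • ((monomial m (1 : K)) • v) := by
      rw [← smul_assoc, smul_monomial, smul_eq_mul, mul_one]
    rw [h2]
    refine Submodule.smul_mem _ _ (hmon m ?_)
    have h3 := hf (mem_support_iff.1 hm)
    rw [← h3, Finsupp.degree_eq_weight_one]
    rfl
  have hlin : ∃ φ : homogeneousSubmodule ι K k →ₗ[K] P (u + 2 * k), Function.Injective φ := by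
    let φ0 : MvPolynomial ι K →ₗ[K] RR c :=
      ((LinearMap.toSpanSingleton (MvPolynomial ι K) (RR c) v)).restrictScalars K
    refine ⟨(φ0.comp (homogeneousSubmodule ι K k).subtype).codRestrict _ (fun f => hmem f f.2), ?_⟩
    intro f g hfg
    have h1 : (f : MvPolynomial ι K) • v = (g : MvPolynomial ι K) • v :=
      congrArg Subtype.val hfg
    have h2 : ((f : MvPolynomial ι K) - g) • v = 0 := by rw [sub_smul, h1, sub_self]
    have h3 : (cb c).repr (((f : MvPolynomial ι K) - g) • v) = 0 := by rw [h2, map_zero]
    rw [map_smul] at h3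
    have h4 : (cb c).repr v ≠ 0 := fun h => hv0 ((cb c).repr.map_eq_zero_iff.1 h)
    obtain ⟨s, hs⟩ := Finsupp.ne_iff.1 h4
    have h5 := DFunLike.congr_fun h3 s
    rw [Finsupp.smul_apply, smul_eq_mul, Finsupp.zero_apply, mul_eq_zero] at h5
    rcases h5 with h5 | h5
    · exact Subtype.ext (sub_eq_zero.1 h5)
    · exact absurd h5 hs
  obtain ⟨φ, hφ⟩ := hlin
  have := hfin (u + 2 * k)
  exact LinearMap.finrank_le_finrank_of_injective hφ

end GC

end Pool.Agent.H15.EGH
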